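import Pool.Agent.J6H10.GI.Base

/-! # Project GI (helper10, MP_0575cc_nt): pointwise bounds of the kernel -/

set_option autoImplicit false

open MeasureTheory Set Filter Topology

namespace Pool.Agent.J6H94.GI

open Pool.Agent.J6H10.GI

theorem KK_nonneg (τ σ t : ℝ) : 0 ≤ KK τ σ t := by
  unfold KK
  positivity

theorem KK_cont (τ : ℝ) {σ : ℝ} (hσ : 1 / 2 ≤ σ) : Continuous (KK τ σ) := by
  unfold KK
  refine Continuous.div (by fun_prop) (by fun_prop) fun t => ?_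
  have : 0 < σ := by linarith
  positivity

theorem exp_bd {τ σ : ℝ} (hσ : 0 ≤ σ) (hσ2 : σ ≤ 3 / 2) (hτ : 0 < τ) (hτ1 : τ ≤ 1) :
    0 ≤ Real.exp (τ * σ) - 1 ∧ Real.exp (τ * σ) - 1 ≤ τ * σ * Real.exp (τ * σ) ∧
      Real.exp (τ * σ) ^ 2 ≤ Real.exp 3 ∧ Real.exp (τ * σ) ≤ Real.exp 3 := by
  have h0 : 0 ≤ τ * σ := by positivity
  have h1 : τ * σ ≤ 3 / 2 := by nlinarith
  refine ⟨?_, ?_, ?_, ?_⟩
  · have := Real.add_one_le_exp (τ * σ)
    linarith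
  · have h2 := Real.add_one_le_exp (-(τ * σ))
    have h3 : Real.exp (τ * σ) * Real.exp (-(τ * σ)) = 1 := by
      rw [← Real.exp_add]
      simp
    have h4 := mul_le_mul_of_nonneg_left h2 (Real.exp_pos (τ * σ)).le
    rw [h3] at h4
    linarith
  · rw [← Real.exp_nat_mul]
    apply Real.exp_le_exp.2
    push_cast
    linarith
  · apply Real.exp_le_exp.2
    linarith

theorem KK_le1 {τ σ : ℝ} (hσ : 1 / 2 ≤ σ) (hσ2 : σ ≤ 3 / 2) (hτ : 0 < τ) (hτ1 : τ ≤ 1) (t : ℝ) :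
    KK τ σ t ≤ Real.exp 3 * τ ^ 2 := by
  have hσ0 : 0 < σ := by linarith
  obtain ⟨h0, h1, h2, h3⟩ := exp_bd hσ0.le hσ2 hτ hτ1
  unfold KK
  rw [div_le_iff₀ (by positivity)]
  have e1 : (Real.exp (τ * σ) - 1) ^ 2 ≤ (τ * σ) ^ 2 * Real.exp 3 := by
    calc (Real.exp (τ * σ) - 1) ^ 2 ≤ (τ * σ * Real.exp (τ * σ)) ^ 2 := pow_le_pow_left₀ h0 h1 2
      _ = (τ * σ) ^ 2 * Real.exp (τ * σ) ^ 2 := by ring
      _ ≤ (τ * σ) ^ 2 * Real.exp 3 := mul_le_mul_of_nonneg_left h2 (sq_nonneg _)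
  have e2 : Real.sin (τ * t / 2) ^ 2 ≤ (τ * t / 2) ^ 2 := Real.sin_sq_le_sq
  have e3 : 4 * Real.exp (τ * σ) * Real.sin (τ * t / 2) ^ 2 ≤ 4 * Real.exp 3 * (τ * t / 2) ^ 2 := by
    refine mul_le_mul ?_ e2 (sq_nonneg _) (by positivity)
    linarith
  nlinarith

theorem KK_le2 {τ σ : ℝ} (hσ : 1 / 2 ≤ σ) (hσ2 : σ ≤ 3 / 2) (hτ : 0 < τ) (hτ1 : τ ≤ 1) {t : ℝ}
    (ht : 0 < t) : KK τ σ t ≤ 5 * Real.exp 3 / t ^ 2 := by
  have hσ0 : 0 < σ := by linarith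
  obtain ⟨h0, h1, h2, h3⟩ := exp_bd hσ0.le hσ2 hτ hτ1
  unfold KK
  have e1 : (Real.exp (τ * σ) - 1) ^ 2 ≤ Real.exp 3 := by
    refine le_trans (pow_le_pow_left₀ h0 ?_ 2) h2
    linarith
  have e2 : Real.sin (τ * t / 2) ^ 2 ≤ 1 := Real.sin_sq_le_one _
  have e3 : 4 * Real.exp (τ * σ) * Real.sin (τ * t / 2) ^ 2 ≤ 4 * Real.exp 3 * 1 := by
    refine mul_le_mul ?_ e2 (sq_nonneg _) (by positivity)
    linarith
  have e4 : (0 : ℝ) < t ^ 2 := by positivity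
  refine div_le_div₀ (by positivity) (by linarith) e4 ?_
  nlinarith [sq_nonneg σ]

theorem t_PB : S_PB := by
  refine ⟨21 * Real.exp 3, by positivity, fun W C h δ τ hδ hδ1 hτ hτ1 => ?_⟩
  have hσ : (1 : ℝ) / 2 ≤ 1 / 2 + δ := by linarith
  have hσ2 : (1 : ℝ) / 2 + δ ≤ 3 / 2 := by linarith
  have hC := h.C_nonneg
  have hW := h.cont δ hδ hδ1
  have hR : (1 : ℝ) ≤ 1 / τ := by
    rw [le_div_iff₀ hτ]
    linarith
  have hR0 : (0 : ℝ) < 1 / τ := by positivity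
  have hc : Continuous fun t => KK τ (1 / 2 + δ) t * W δ t := (KK_cont τ hσ).mul hW
  have h0 : ∀ t, 0 ≤ KK τ (1 / 2 + δ) t * W δ t := fun t => mul_nonneg (KK_nonneg _ _ _) (h.nonneg δ t)
  obtain ⟨t1, t2⟩ := h.tail hδ hδ1 hR
  have i1 : IntegrableOn (fun t => KK τ (1 / 2 + δ) t * W δ t) (Ioc 0 (1 / τ)) :=
    (hc.integrableOn_Icc).mono_set Ioc_subset_Icc_self
  have hle : ∀ t ∈ Ioi (1 / τ), KK τ (1 / 2 + δ) t * W δ t ≤ 5 * Real.exp 3 * (W δ t / t ^ 2) := by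
    intro t ht
    have ht0 : (0 : ℝ) < t := lt_trans hR0 ht
    have h2 := mul_le_mul_of_nonneg_right (KK_le2 hσ hσ2 hτ hτ1 ht0) (h.nonneg δ t)
    calc KK τ (1 / 2 + δ) t * W δ t ≤ 5 * Real.exp 3 / t ^ 2 * W δ t := h2
      _ = 5 * Real.exp 3 * (W δ t / t ^ 2) := by ring
  have i2 : IntegrableOn (fun t => KK τ (1 / 2 + δ) t * W δ t) (Ioi (1 / τ)) := by
    refine Integrable.mono' (t1.const_mul (5 * Real.exp 3)) hc.aestronglyMeasurable ?_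
    refine (ae_restrict_iff' measurableSet_Ioi).2 (Eventually.of_forall fun t ht => ?_)
    rw [Real.norm_eq_abs, abs_of_nonneg (h0 t)]
    exact hle t ht
  have e : Ioi (0 : ℝ) = Ioc 0 (1 / τ) ∪ Ioi (1 / τ) := (Ioc_union_Ioi_eq_Ioi hR0.le).symm
  have hi : IntegrableOn (fun t => KK τ (1 / 2 + δ) t * W δ t) (Ioi 0) := by
    rw [e]
    exact i1.union i2
  refine ⟨hi, setIntegral_nonneg measurableSet_Ioi fun t _ => h0 t, ?_⟩
  unfold Psi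
  rw [e, setIntegral_union (by rw [Set.disjoint_left]; intro x hx hx'; exact absurd hx.2 (not_le.2 hx'))
    measurableSet_Ioi i1 i2]
  have b1 : ∫ t in Ioc (0 : ℝ) (1 / τ), KK τ (1 / 2 + δ) t * W δ t ≤ Real.exp 3 * C * τ := by
    have e1 := h.bound δ (1 / τ) hδ hδ1 hR
    rw [intervalIntegral.integral_of_le hR0.le] at e1
    have e2 : ∫ t in Ioc (0 : ℝ) (1 / τ), KK τ (1 / 2 + δ) t * W δ t ≤
        ∫ t in Ioc (0 : ℝ) (1 / τ), Real.exp 3 * τ ^ 2 * W δ t := by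
      refine setIntegral_mono_on i1 (((hW.integrableOn_Icc).mono_set Ioc_subset_Icc_self).const_mul _)
        measurableSet_Ioc fun t _ => ?_
      exact mul_le_mul_of_nonneg_right (KK_le1 hσ hσ2 hτ hτ1 t) (h.nonneg δ t)
    rw [integral_const_mul] at e2
    have e3 := mul_le_mul_of_nonneg_left e1 (show 0 ≤ Real.exp 3 * τ ^ 2 by positivity)
    have e4 : Real.exp 3 * τ ^ 2 * (C * (1 / τ)) = Real.exp 3 * C * τ := by
      field_simp
    linarith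
  have b2 : ∫ t in Ioi (1 / τ), KK τ (1 / 2 + δ) t * W δ t ≤ 20 * Real.exp 3 * C * τ := by
    have e1 := setIntegral_mono_on i2 (t1.const_mul (5 * Real.exp 3)) measurableSet_Ioi hle
    rw [integral_const_mul] at e1
    have e3 := mul_le_mul_of_nonneg_left t2 (show 0 ≤ 5 * Real.exp 3 by positivity)
    have e4 : 5 * Real.exp 3 * (4 * C / (1 / τ)) = 20 * Real.exp 3 * C * τ := by
      field_simp
      ring
    linarith
  have e5 : 21 * Real.exp 3 * C * τ = Real.exp 3 * C * τ + 20 * Real.exp 3 * C * τ := by ring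
  linarith

end Pool.Agent.J6H94.GI
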